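import Pool.Agent.Helper5.GB.St

/-!
# MP_b39980_an, project GB, module Ana

No real analytic curve of the frontier of `E0` ends at one of the two conservative points.
-/

set_option autoImplicit false

open Set Filter Topology
open Helper85.HN (hen Orb Bd KK E0)
open Pool.Agent.Helper5.GB

noncomputable section

namespace Pool.Agent.Helper24.GB

/-- A differentiable function which vanishes at `0` is at most `K t` for small `t > 0`. -/
private lemma linb (f : ℝ → ℝ) (hf : DifferentiableAt ℝ f 0) (h0 : f 0 = 0) :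
    ∃ K : ℝ, 0 < K ∧ ∀ᶠ t in 𝓝[>] (0 : ℝ), |f t| ≤ K * t := by
  obtain ⟨K, hK, h⟩ := hf.isBigO_sub.exists_pos
  refine ⟨K, hK, ?_⟩
  have h1 := h.bound
  have h2 : ∀ᶠ t in 𝓝[>] (0 : ℝ), ‖f t - f 0‖ ≤ K * ‖t - 0‖ := h1.filter_mono nhdsWithin_le_nhds
  filter_upwards [h2, self_mem_nhdsWithin] with t ht ht0
  have ht0' : (0 : ℝ) < t := ht0
  rw [h0, sub_zero, sub_zero, Real.norm_eq_abs, Real.norm_eq_abs, abs_of_pos ht0'] at ht
  exact ht

/-- A point of the frontier is a limit of points of the set. -/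
private lemma notfr (b c : ℝ) (h : ∃ δ > 0, ∀ b' c' : ℝ, |b' - b| < δ → |c' - c| < δ → ((b', c') : ℝ × ℝ) ∉ E0) :
    ((b, c) : ℝ × ℝ) ∉ frontier E0 := by
  intro hm
  obtain ⟨δ, hδ, hn⟩ := h
  have hc : ((b, c) : ℝ × ℝ) ∈ closure E0 := frontier_subset_closure hm
  obtain ⟨q, hq, hd⟩ := Metric.mem_closure_iff.1 hc δ hδ
  have hd' : dist q (b, c) < δ := by rw [dist_comm]; exact hd
  rw [Prod.dist_eq, max_lt_iff, Real.dist_eq, Real.dist_eq] at hd'
  exact hn q.1 q.2 hd'.1 hd'.2 hq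

/-- The comparison of the two exponentials. -/
private lemma expmono (a e K t κ : ℝ) (ha : 0 < a) (he : 0 < e) (hκ : 0 < κ) (h : e ≤ K * t) :
    Real.exp (-(a / e ^ κ)) ≤ Real.exp (-(a / (K * t) ^ κ)) := by
  apply Real.exp_le_exp.2
  have h1 : e ^ κ ≤ (K * t) ^ κ := Real.rpow_le_rpow he.le h hκ.le
  have h2 : 0 < e ^ κ := Real.rpow_pos_of_pos he κ
  have h3 : a / (K * t) ^ κ ≤ a / e ^ κ := div_le_div_of_nonneg_left ha.le h2 h1
  linarith

theorem hAna (h1 : StFlt) (h2 : Helper85.HN.StTop) (h3 : Helper83.PE.StFinA) (h4 : StHof) (h5 : StNeg) : StAna := by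
  intro γ hγ h0 hev
  have hB : AnalyticAt ℝ (fun t => (γ t).1) 0 := analyticAt_fst.fun_comp hγ
  have hC : AnalyticAt ℝ (fun t => (γ t).2) 0 := analyticAt_snd.fun_comp hγ
  have hBc : ContinuousAt (fun t => (γ t).1) 0 := hB.continuousAt
  have hCc : ContinuousAt (fun t => (γ t).2) 0 := hC.continuousAt
  rcases h0 with h0 | h0
  · -- the point (1,1)
    obtain ⟨hT1, -, a, δ, ha, hδ, -, hT⟩ := h2
    have hB0 : (γ 0).1 = 1 := by rw [h0]
    have hC0 : (γ 0).2 = 1 := by rw [h0]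
    have hea : AnalyticAt ℝ (fun t => (1 + (γ t).1) ^ 2 / 4 - (γ t).2) 0 :=
      (((analyticAt_const.add hB).pow 2).div_const).sub hC
    obtain ⟨K, hK, hKt⟩ := linb (fun t => (1 + (γ t).1) ^ 2 / 4 - (γ t).2) hea.differentiableAt
      (by simp only [hB0, hC0]; norm_num)
    have hn1 : ∀ᶠ t in 𝓝[>] (0 : ℝ), |(γ t).1 - 1| < δ ∧ 0 < (γ t).1 := by
      have hcc : ContinuousAt (fun t => |(γ t).1 - 1|) 0 := (hBc.sub continuousAt_const).abs
      have e1 : ∀ᶠ t in 𝓝 (0 : ℝ), |(γ t).1 - 1| < δ :=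
        hcc.eventually_lt continuousAt_const (by simpa [hB0] using hδ)
      have e2 : ∀ᶠ t in 𝓝 (0 : ℝ), 0 < (γ t).1 :=
        continuousAt_const.eventually_lt hBc (by rw [hB0]; exact one_pos)
      exact (e1.and e2).filter_mono nhdsWithin_le_nhds
    have hn2 : ∀ᶠ t in 𝓝[>] (0 : ℝ), (1 + (γ t).1) ^ 2 / 4 - (γ t).2 < δ := by
      have e1 : ∀ᶠ t in 𝓝 (0 : ℝ), (1 + (γ t).1) ^ 2 / 4 - (γ t).2 < δ :=
        hea.continuousAt.eventually_lt continuousAt_const (by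
          simp only [hB0, hC0]; norm_num; exact hδ)
      exact e1.filter_mono nhdsWithin_le_nhds
    have hpos : ∀ᶠ t in 𝓝[>] (0 : ℝ), 0 < (1 + (γ t).1) ^ 2 / 4 - (γ t).2 := by
      filter_upwards [hev, hn1] with t ht ht1
      obtain ⟨u1, u2⟩ := hT1 (γ t) ht.1
      rcases lt_or_eq_of_le u1 with u | u
      · linarith
      · exfalso
        rcases u2 u with v | v
        · exact ht.2 (by rw [v, h0])
        · have := ht1.2
          rw [v] at this
          norm_num at this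
    have hbd : ∀ᶠ t in 𝓝[>] (0 : ℝ), |(γ t).1 - 1| ≤ Real.exp (-(a / (K * t) ^ (1 / 4 : ℝ))) := by
      filter_upwards [hev, hn1, hn2, hpos, hKt] with t ht ht1 ht2 ht3 ht4
      have w1 := hT (γ t) ht.1 ht1.1 (by linarith) (by linarith)
      refine w1.trans (expmono a _ K t (1 / 4) ha ht3 (by norm_num) ?_)
      exact (le_abs_self _).trans ht4
    have hfl := h1 (fun t => (γ t).1 - 1) a K (1 / 4) ha hK (by norm_num) (hB.sub analyticAt_const) hbd
    have hfl' : ∀ᶠ t in 𝓝[>] (0 : ℝ), (γ t).1 - 1 = 0 := hfl.filter_mono nhdsWithin_le_nhds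
    obtain ⟨t, ⟨ht1, ht2⟩, ht3⟩ := ((hev.and hfl').and hpos).exists
    have hb1 : (γ t).1 = 1 := by linarith
    have hc1 : (γ t).2 < 1 := by rw [hb1] at ht3; linarith
    have hnf := notfr 1 (γ t).2 (h3 (γ t).2 hc1)
    apply hnf
    have : ((1, (γ t).2) : ℝ × ℝ) = γ t := Prod.ext hb1.symm rfl
    rw [this]
    exact ht1.1
  · -- the point (-1,0)
    obtain ⟨a, d, ha, hd, hH⟩ := h4
    have hB0 : (γ 0).1 = -1 := by rw [h0]
    have hC0 : (γ 0).2 = 0 := by rw [h0]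
    obtain ⟨K, hK, hKt⟩ := linb (fun t => (γ t).2) hC.differentiableAt hC0
    have hn1 : ∀ᶠ t in 𝓝[>] (0 : ℝ), |(γ t).1 + 1| < d ∧ |(γ t).2| < d := by
      have hcc : ContinuousAt (fun t => |(γ t).1 + 1|) 0 := (hBc.add continuousAt_const).abs
      have hcd : ContinuousAt (fun t => |(γ t).2|) 0 := hCc.abs
      have e1 : ∀ᶠ t in 𝓝 (0 : ℝ), |(γ t).1 + 1| < d :=
        hcc.eventually_lt continuousAt_const (by simpa [hB0] using hd)
      have e2 : ∀ᶠ t in 𝓝 (0 : ℝ), |(γ t).2| < d :=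
        hcd.eventually_lt continuousAt_const (by simpa [hC0] using hd)
      exact (e1.and e2).filter_mono nhdsWithin_le_nhds
    have hneg : ∀ᶠ t in 𝓝[>] (0 : ℝ), (γ t).2 < 0 ∧ |(γ t).1 + 1| ≤ Real.exp (-(a / Real.sqrt (-(γ t).2))) := by
      filter_upwards [hev, hn1] with t ht ht1
      rcases hH (γ t) ht.1 ht1.1 ht1.2 with v | v
      · exact absurd (by rw [v, h0]) ht.2
      · exact v
    have hbd : ∀ᶠ t in 𝓝[>] (0 : ℝ), |(γ t).1 + 1| ≤ Real.exp (-(a / (K * t) ^ (1 / 2 : ℝ))) := by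
      filter_upwards [hneg, hKt] with t ht ht4
      have w1 := ht.2
      rw [Real.sqrt_eq_rpow] at w1
      refine w1.trans (expmono a _ K t (1 / 2) ha (by linarith [ht.1]) (by norm_num) ?_)
      exact (neg_le_abs _).trans ht4
    have hfl := h1 (fun t => (γ t).1 + 1) a K (1 / 2) ha hK (by norm_num) (hB.add analyticAt_const) hbd
    have hfl' : ∀ᶠ t in 𝓝[>] (0 : ℝ), (γ t).1 + 1 = 0 := hfl.filter_mono nhdsWithin_le_nhds
    obtain ⟨t, ⟨ht1, ht2⟩, ht3⟩ := ((hev.and hfl').and hneg).exists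
    have hb1 : (γ t).1 = -1 := by linarith
    have hnf := notfr (-1) (γ t).2 (by
      obtain ⟨δ, hδ, hn⟩ := h5 (γ t).2 ht3.1
      refine ⟨δ, hδ, fun b' c' hb hc => hn b' c' ?_ hc⟩
      rwa [sub_neg_eq_add] at hb)
    apply hnf
    have : ((-1, (γ t).2) : ℝ × ℝ) = γ t := Prod.ext hb1.symm rfl
    rw [this]
    exact ht1.1

end Pool.Agent.Helper24.GB

end
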